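import Pool.Agent.helper10.RG.SpecB

/-!
# Project rg (MP_2e0e07_nt), row RAT: the sum of the multiplicity space eigenvalues is rational
-/

set_option autoImplicit false

universe u v w

namespace Pool.Agent.RG

open Matrix Polynomial Pool.Agent.GO Pool.Agent.AR

/-- The hypotheses on the multisets. -/
structure RAT_hyp {K : Type*} [Field K] (R N₀ M₀ : Multiset K) (α β : K) : Prop where
  a0 : α ≠ 0
  b0 : β ≠ 0
  eq : R = N₀ + M₀.map (fun μ => α * μ) + M₀.map (fun μ => β * μ)
  o1 : ∀ γ ∈ R, ∀ γ' ∈ R, α ^ 2 * γ ≠ β ^ 2 * γ'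
  g1 : ∀ ν ∈ N₀, ∀ μ ∈ M₀, ν ≠ α * μ ∧ ν ≠ β * μ
  g2 : ∀ ν ∈ N₀, ∀ μ ∈ M₀, ν * β ≠ α ^ 2 * μ ∧ ν * α ≠ β ^ 2 * μ
  g3 : ∀ ν ∈ N₀, ∀ ν' ∈ N₀, ν * β ≠ ν' * α

lemma RAT_mem_R {K : Type*} [Field K] {R N₀ M₀ : Multiset K} {α β : K}
    (h : RAT_hyp R N₀ M₀ α β) (y : K) :
    y ∈ R ↔ y ∈ N₀ ∨ (∃ μ ∈ M₀, α * μ = y) ∨ ∃ μ ∈ M₀, β * μ = y := by
  rw [h.eq, Multiset.mem_add, Multiset.mem_add, Multiset.mem_map, Multiset.mem_map, or_assoc]

lemma RAT_memA {K : Type*} [Field K] {R N₀ M₀ : Multiset K} {α β : K}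
    (h : RAT_hyp R N₀ M₀ α β) {μ : K} (hμ : μ ∈ M₀) : α * μ ∈ R :=
  (RAT_mem_R h _).2 (Or.inr (Or.inl ⟨μ, hμ, rfl⟩))

lemma RAT_memB {K : Type*} [Field K] {R N₀ M₀ : Multiset K} {α β : K}
    (h : RAT_hyp R N₀ M₀ α β) {μ : K} (hμ : μ ∈ M₀) : β * μ ∈ R :=
  (RAT_mem_R h _).2 (Or.inr (Or.inr ⟨μ, hμ, rfl⟩))

lemma RAT_mem_iff {K : Type*} [Field K] {R N₀ M₀ : Multiset K} {α β : K}
    (h : RAT_hyp R N₀ M₀ α β) (x : K) : x ∈ M₀ ↔ α * x ∈ R ∧ β * x ∈ R := by
  constructor
  · intro hx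
    exact ⟨RAT_memA h hx, RAT_memB h hx⟩
  · rintro ⟨h1, h2⟩
    rcases (RAT_mem_R h _).1 h1 with hν | ⟨μ, hμ, e⟩ | ⟨μ, hμ, e⟩
    · rcases (RAT_mem_R h _).1 h2 with hν' | ⟨μ', hμ', e'⟩ | ⟨μ', hμ', e'⟩
      · exact absurd (by ring) (h.g3 _ hν _ hν')
      · exact absurd (by
          calc α * x * β = α * (β * x) := by ring
            _ = α * (α * μ') := by rw [e']
            _ = α ^ 2 * μ' := by ring) (h.g2 _ hν _ hμ').1
      · have := mul_left_cancel₀ h.b0 e'
        exact this ▸ hμ'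
    · have := mul_left_cancel₀ h.a0 e
      exact this ▸ hμ
    · rcases (RAT_mem_R h _).1 h2 with hν' | ⟨μ', hμ', e'⟩ | ⟨μ', hμ', e'⟩
      · exact absurd (by
          calc β * x * α = β * (α * x) := by ring
            _ = β * (β * μ) := by rw [e]
            _ = β ^ 2 * μ := by ring) (h.g2 _ hν' _ hμ).2
      · exact absurd (by
          calc α ^ 2 * (β * μ') = α * β * (α * μ') := by ring
            _ = α * β * (β * x) := by rw [e']
            _ = β ^ 2 * (α * x) := by ring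
            _ = β ^ 2 * (β * μ) := by rw [e]) (h.o1 _ (RAT_memB h hμ') _ (RAT_memB h hμ))
      · have := mul_left_cancel₀ h.b0 e'
        exact this ▸ hμ'

lemma RAT_count {K : Type*} [Field K] [DecidableEq K] {R N₀ M₀ : Multiset K} {α β : K}
    (h : RAT_hyp R N₀ M₀ α β) (x : K) (hx : x ∈ M₀) :
    M₀.count x = R.count (α * x) ∧ M₀.count x = R.count (β * x) := by
  have ia : Function.Injective (fun μ : K => α * μ) := fun a b e => mul_left_cancel₀ h.a0 e
  have ib : Function.Injective (fun μ : K => β * μ) := fun a b e => mul_left_cancel₀ h.b0 e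
  have ca : (M₀.map (fun μ => α * μ)).count (α * x) = M₀.count x :=
    Multiset.count_map_eq_count' (fun μ : K => α * μ) M₀ ia x
  have cb : (M₀.map (fun μ => β * μ)).count (β * x) = M₀.count x :=
    Multiset.count_map_eq_count' (fun μ : K => β * μ) M₀ ib x
  have n1 : N₀.count (α * x) = 0 := by
    rw [Multiset.count_eq_zero]
    intro hν
    exact (h.g1 _ hν x hx).1 rfl
  have n2 : N₀.count (β * x) = 0 := by
    rw [Multiset.count_eq_zero]
    intro hν
    exact (h.g1 _ hν x hx).2 rfl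
  have m1 : (M₀.map (fun μ => β * μ)).count (α * x) = 0 := by
    rw [Multiset.count_eq_zero]
    intro hm
    obtain ⟨μ, hμ, e⟩ := Multiset.mem_map.1 hm
    exact h.o1 _ (RAT_memB h hx) _ (RAT_memA h hμ) (by
      calc α ^ 2 * (β * x) = α * β * (α * x) := by ring
        _ = α * β * (β * μ) := by rw [← e]
        _ = β ^ 2 * (α * μ) := by ring)
  have m2 : (M₀.map (fun μ => α * μ)).count (β * x) = 0 := by
    rw [Multiset.count_eq_zero]
    intro hm
    obtain ⟨μ, hμ, e⟩ := Multiset.mem_map.1 hm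
    exact h.o1 _ (RAT_memB h hμ) _ (RAT_memA h hx) (by
      calc α ^ 2 * (β * μ) = α * β * (α * μ) := by ring
        _ = α * β * (β * x) := by rw [← e]
        _ = β ^ 2 * (α * x) := by ring)
  constructor
  · rw [h.eq, Multiset.count_add, Multiset.count_add, n1, ca, m1]
    simp
  · rw [h.eq, Multiset.count_add, Multiset.count_add, n2, cb, m2]
    simp

lemma RAT_fix {K : Type*} [Field K] {R N₀ M₀ : Multiset K} {α β : K}
    (h : RAT_hyp R N₀ M₀ α β) (τ : K ≃+* K) (hR : R.map τ = R)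
    (hab : (τ α = α ∧ τ β = β) ∨ (τ α = β ∧ τ β = α)) : τ M₀.sum = M₀.sum := by
  classical
  have hmemR : ∀ y, y ∈ R ↔ τ y ∈ R := by
    intro y
    constructor
    · intro hy
      rw [← hR]
      exact Multiset.mem_map_of_mem _ hy
    · intro hy
      rw [← hR] at hy
      obtain ⟨z, hz, e⟩ := Multiset.mem_map.1 hy
      exact (τ.injective e) ▸ hz
  have hcountR : ∀ y, R.count (τ y) = R.count y := by
    intro y
    have h1 := Multiset.count_map_eq_count' τ R τ.injective y
    rw [hR] at h1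
    exact h1
  have hmem : ∀ x, x ∈ M₀ ↔ τ x ∈ M₀ := by
    intro x
    rw [RAT_mem_iff h, RAT_mem_iff h, hmemR (α * x), hmemR (β * x), map_mul, map_mul]
    rcases hab with ⟨e1, e2⟩ | ⟨e1, e2⟩
    · rw [e1, e2]
    · rw [e1, e2, and_comm]
  have hcount : ∀ x, M₀.count (τ x) = M₀.count x := by
    intro x
    by_cases hx : x ∈ M₀
    · have hx' := (hmem x).1 hx
      rw [(RAT_count h x hx).1, ← hcountR (α * x), map_mul]
      rcases hab with ⟨e1, e2⟩ | ⟨e1, e2⟩
      · rw [e1]
        exact (RAT_count h _ hx').1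
      · rw [e1]
        exact (RAT_count h _ hx').2
    · have hx' : τ x ∉ M₀ := fun hc => hx ((hmem x).2 hc)
      rw [Multiset.count_eq_zero.2 hx, Multiset.count_eq_zero.2 hx']
  have hM : M₀.map τ = M₀ := by
    ext y
    obtain ⟨x, rfl⟩ := τ.surjective y
    rw [Multiset.count_map_eq_count' τ M₀ τ.injective x, hcount]
  rw [map_multiset_sum, hM]

lemma RAT_gal {E K : Type*} [Field E] [Field K] [Algebra E K] [IsGalois E K] (P Q : E[X])
    (hP : (P.map (algebraMap E K)).Splits) (α β : K) (N₀ M₀ : Multiset K)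
    (hQ : Q.map (algebraMap E K) = (X - C α) * (X - C β))
    (h : RAT_hyp (P.map (algebraMap E K)).roots N₀ M₀ α β) :
    ∃ t : E, algebraMap E K t = M₀.sum := by
  have key : M₀.sum ∈ (⊥ : IntermediateField E K) := by
    rw [InfiniteGalois.mem_bot_iff_fixed]
    intro τ
    have hcomp : (τ : K →+* K).comp (algebraMap E K) = algebraMap E K := by
      ext e
      exact τ.commutes e
    refine RAT_fix h (τ : K ≃+* K) ?_ ?_
    · have h1 := hP.roots_map (τ : K →+* K)
      rw [Polynomial.map_map, hcomp] at h1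
      exact h1.symm
    · have h1 : (Q.map (algebraMap E K)).map (τ : K →+* K) = Q.map (algebraMap E K) := by
        rw [Polynomial.map_map, hcomp]
      rw [hQ, Polynomial.map_mul, Polynomial.map_sub, Polynomial.map_sub, Polynomial.map_X,
        Polynomial.map_C, Polynomial.map_C] at h1
      have e0 := congrArg (fun q : K[X] => q.eval (τ α)) h1
      have e1 := congrArg (fun q : K[X] => q.eval 0) h1
      have e2 := congrArg (fun q : K[X] => q.eval 1) h1
      simp only [eval_mul, eval_sub, eval_X, eval_C] at e0 e1 e2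
      have f0 : (τ α - α) * (τ α - β) = 0 := by
        rw [← e0]
        have : ((τ : K →+* K) α) = τ α := rfl
        rw [this, sub_self, zero_mul]
      have f1 : τ α + τ β = α + β := by
        have g1 : ((τ : K →+* K) α) = τ α := rfl
        have g2 : ((τ : K →+* K) β) = τ β := rfl
        rw [g1, g2] at e1 e2
        linear_combination e1 - e2
      rcases mul_eq_zero.1 f0 with f | f
      · left
        have fa : τ α = α := sub_eq_zero.1 f
        refine ⟨fa, ?_⟩
        show τ β = β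
        linear_combination f1 - f
      · right
        have fa : τ α = β := sub_eq_zero.1 f
        refine ⟨fa, ?_⟩
        show τ β = α
        linear_combination f1 - f
  rw [IntermediateField.mem_bot] at key
  exact key

theorem RAT : RAT_stmt.{u, v} := by
  intro E _ _ F _ _ _ ι P Q α β N₀ M₀ hPm hQ hα hβ hroots o1 g1 g2 g3
  letI : Algebra E F := ι.toAlgebra
  have hι : algebraMap E F = ι := rfl
  let K := algebraicClosure E F
  haveI : IsAlgClosure E K := inferInstance
  haveI : IsGalois E K := inferInstance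
  haveI : IsAlgClosed K := IsAlgClosure.isAlgClosed E
  have hK : ∀ x : F, IsAlgebraic E x → x ∈ K := fun x hx => mem_algebraicClosure_iff.2 hx
  have hQne : Q ≠ 0 := by
    intro h0
    rw [h0, Polynomial.map_zero] at hQ
    have := congrArg Polynomial.natDegree hQ
    rw [Polynomial.natDegree_mul (X_sub_C_ne_zero α) (X_sub_C_ne_zero β)] at this
    simp at this
  have hαK : α ∈ K := hK α ⟨Q, hQne, by
    rw [Polynomial.aeval_def, hι, ← Polynomial.eval_map, hQ]
    simp⟩
  have hβK : β ∈ K := hK β ⟨Q, hQne, by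
    rw [Polynomial.aeval_def, hι, ← Polynomial.eval_map, hQ]
    simp⟩
  have hRK : ∀ x ∈ (P.map ι).roots, x ∈ K := by
    intro x hx
    refine hK x ⟨P, hPm.ne_zero, ?_⟩
    rw [Polynomial.aeval_def, hι, ← Polynomial.eval_map]
    exact (Polynomial.mem_roots'.1 hx).2
  have hN₀K : ∀ x ∈ N₀, x ∈ K := by
    intro x hx
    apply hRK
    rw [hroots, Multiset.mem_add, Multiset.mem_add]
    exact Or.inl (Or.inl hx)
  have hM₀K : ∀ x ∈ M₀, x ∈ K := by
    intro x hx
    have h1 : α * x ∈ K := by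
      apply hRK
      rw [hroots, Multiset.mem_add, Multiset.mem_add]
      exact Or.inl (Or.inr (Multiset.mem_map_of_mem _ hx))
    have h2 : x = α⁻¹ * (α * x) := by rw [inv_mul_cancel_left₀ hα]
    rw [h2]
    exact K.mul_mem (K.inv_mem hαK) h1
  obtain ⟨N₁, hN₁⟩ : ∃ N₁ : Multiset K, N₁.map (fun x : K => (x : F)) = N₀ :=
    ⟨N₀.pmap (fun x hx => (⟨x, hx⟩ : K)) hN₀K, by
      rw [Multiset.map_pmap, Multiset.pmap_eq_map, Multiset.map_id']⟩
  obtain ⟨M₁, hM₁⟩ : ∃ M₁ : Multiset K, M₁.map (fun x : K => (x : F)) = M₀ :=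
    ⟨M₀.pmap (fun x hx => (⟨x, hx⟩ : K)) hM₀K, by
      rw [Multiset.map_pmap, Multiset.pmap_eq_map, Multiset.map_id']⟩
  have hinj : Function.Injective (fun x : K => (x : F)) := Subtype.val_injective
  have hcomp : (algebraMap K F).comp (algebraMap E K) = ι := by
    rw [← IsScalarTower.algebraMap_eq E K F]
    exact hι
  have hsp : (P.map (algebraMap E K)).Splits := IsAlgClosed.splits _
  have hRmap : (P.map (algebraMap E K)).roots.map (fun x : K => (x : F)) = (P.map ι).roots := by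
    have h1 := hsp.roots_map (algebraMap K F)
    rw [Polynomial.map_map, hcomp] at h1
    exact h1.symm
  have hmemR : ∀ x : K, x ∈ (P.map (algebraMap E K)).roots → (x : F) ∈ (P.map ι).roots := by
    intro x hx
    rw [← hRmap]
    exact Multiset.mem_map_of_mem (fun x : K => (x : F)) hx
  have hmemN : ∀ x : K, x ∈ N₁ → (x : F) ∈ N₀ := by
    intro x hx
    rw [← hN₁]
    exact Multiset.mem_map_of_mem (fun x : K => (x : F)) hx
  have hmemM : ∀ x : K, x ∈ M₁ → (x : F) ∈ M₀ := by
    intro x hx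
    rw [← hM₁]
    exact Multiset.mem_map_of_mem (fun x : K => (x : F)) hx
  have hcoe : ∀ {x y : K}, x = y → (x : F) = (y : F) := fun e => congrArg _ e
  obtain ⟨t, ht⟩ := RAT_gal P Q hsp (⟨α, hαK⟩ : K) ⟨β, hβK⟩ N₁ M₁ (by
      apply Polynomial.map_injective (algebraMap K F) (algebraMap K F).injective
      rw [Polynomial.map_map, hcomp, hQ, Polynomial.map_mul, Polynomial.map_sub,
        Polynomial.map_sub, Polynomial.map_X, Polynomial.map_C, Polynomial.map_C]
      rfl)
    { a0 := fun e => hα (hcoe e)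
      b0 := fun e => hβ (hcoe e)
      eq := by
        apply Multiset.map_injective hinj
        rw [hRmap, hroots, Multiset.map_add, Multiset.map_add, Multiset.map_map,
          Multiset.map_map, hN₁, ← hM₁, Multiset.map_map, Multiset.map_map]
        rfl
      o1 := fun γ hγ γ' hγ' e => o1 _ (hmemR γ hγ) _ (hmemR γ' hγ') (hcoe e)
      g1 := fun ν hν μ hμ => ⟨fun e => (g1 _ (hmemN ν hν) _ (hmemM μ hμ)).1 (hcoe e),
        fun e => (g1 _ (hmemN ν hν) _ (hmemM μ hμ)).2 (hcoe e)⟩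
      g2 := fun ν hν μ hμ => ⟨fun e => (g2 _ (hmemN ν hν) _ (hmemM μ hμ)).1 (hcoe e),
        fun e => (g2 _ (hmemN ν hν) _ (hmemM μ hμ)).2 (hcoe e)⟩
      g3 := fun ν hν ν' hν' e => g3 _ (hmemN ν hν) _ (hmemN ν' hν') (hcoe e) }
  refine ⟨t, ?_⟩
  have h1 : ι t = ((algebraMap E K t : K) : F) := rfl
  rw [h1, ht, ← hM₁]
  exact map_multiset_sum (algebraMap K F) M₁

end Pool.Agent.RG
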