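import Mathlib
import Pool.Agent.helper67.RG.Spec

/-!
# Project rg (MP_2e0e07_nt), row ZDN: domain and density on small open subgroups
-/

namespace Pool.Agent.RG.ZDN

open Matrix Polynomial Pool.Agent.GO Pool.Agent.AR MeasureTheory Kronecker

theorem ZDN : ZDN_stmt := by
  intro Γ F m _ _ _ _ _ _ μ _ _ _ _ _ _ _ R hR
  classical
  have hft : Algebra.FiniteType F (alg R) := finiteType_alg R
  have hnoeth : IsNoetherianRing (alg R) := Algebra.FiniteType.isNoetherianRing F _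
  obtain ⟨U₀, hU₀open, hU₀⟩ := exists_component μ (alg R) (fun f hf => continuous_alg R hR hf)
    (fun f hf h => alg_lt R h hf)
  refine ⟨U₀, hU₀open, fun U hle hUopen => ?_⟩
  have hvan : ∀ f ∈ alg R, μ ({g | f g = 0} ∩ (U : Set Γ)) ≠ 0 → ∀ g ∈ U₀, f g = 0 := by
    intro f hf hpos g hg
    refine hU₀ f hf 1 ?_ g (by rw [inv_one, one_mul]; exact hg)
    intro h0
    apply hpos
    refine measure_mono_null ?_ h0
    rintro x ⟨hx1, hx2⟩
    refine ⟨hx1, ?_⟩
    show (1 : Γ)⁻¹ * x ∈ U₀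
    rw [inv_one, one_mul]
    exact hle hx2
  have hUpos : μ (U : Set Γ) ≠ 0 := (hUopen.measure_pos μ ⟨1, U.one_mem⟩).ne'
  have hUclosed : IsClosed (U : Set Γ) := Subgroup.isClosed_of_isOpen U hUopen
  refine ⟨⟨?_⟩, ?_⟩
  · intro a b hab
    obtain ⟨a', ha', ha⟩ := res_surj R U a.2
    obtain ⟨b', hb', hb⟩ := res_surj R U b.2
    have hcov : (U : Set Γ) ⊆ ({g | a' g = 0} ∩ (U : Set Γ)) ∪ ({g | b' g = 0} ∩ (U : Set Γ)) := by
      intro g hg
      have h1 : a.1 ⟨g, hg⟩ * b.1 ⟨g, hg⟩ = 0 :=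
        congrArg (fun z : alg (R.comp U.subtype) => z.1 ⟨g, hg⟩) hab
      rw [← ha, ← hb] at h1
      have h2 : a' g * b' g = 0 := h1
      rcases mul_eq_zero.mp h2 with h4 | h4
      · left; exact ⟨h4, hg⟩
      · right; exact ⟨h4, hg⟩
    have hor : μ ({g | a' g = 0} ∩ (U : Set Γ)) ≠ 0 ∨ μ ({g | b' g = 0} ∩ (U : Set Γ)) ≠ 0 := by
      by_contra hcon
      push Not at hcon
      exact hUpos (measure_mono_null hcov (measure_union_null hcon.1 hcon.2))
    rcases hor with h | h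
    · left
      apply Subtype.ext
      rw [← ha]
      ext u
      exact hvan a' ha' h u.1 (hle u.2)
    · right
      apply Subtype.ext
      rw [← hb]
      ext u
      exact hvan b' hb' h u.1 (hle u.2)
  · intro G hG f hf hfG
    obtain ⟨f', hf', hff⟩ := res_surj R U hf
    have hclosed : IsClosed ({g | f' g = 0} ∩ (U : Set Γ)) :=
      (isClosed_singleton.preimage (continuous_alg R hR hf')).inter hUclosed
    have hpos : μ ({g | f' g = 0} ∩ (U : Set Γ)) ≠ 0 := by
      intro h0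
      obtain ⟨g, hgG, hgU, hgC⟩ := hG _ hclosed h0
      apply hgC
      refine ⟨?_, hgU⟩
      have h1 : f ⟨g, hgU⟩ = 0 := hfG ⟨g, hgU⟩ hgG
      rw [← hff] at h1
      exact h1
    rw [← hff]
    ext u
    exact hvan f' hf' hpos u.1 (hle u.2)

end Pool.Agent.RG.ZDN
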